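import Pool.Agent.P.MP_9d3c8a_al.StabInst

set_option autoImplicit false

open Pool.Agent.WittInf in
/-- The derivations of a polynomial ring in infinitely many variables over any commutative ring
that kill all but finitely many variables form a stable module. -/
theorem Pool.Agent.Results.MP_9d3c8a_al.StableIso.poly_is_stable (k I : Type*) [CommRing k]
    [Infinite I]
    (L : Submodule (MvPolynomial I k) (Derivation k (MvPolynomial I k) (MvPolynomial I k)))
    (hL : ∀ d, d ∈ L ↔ Set.Finite {i : I | d (MvPolynomial.X i) ≠ 0}) : Stable L :=
  stable_poly k I L hL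

open Pool.Agent.WittInf in
/-- Every linear bijection between stable modules of derivations that preserves commutators is
conjugation by a unique isomorphism of the underlying commutative algebras. -/
theorem Pool.Agent.Results.MP_9d3c8a_al.StableIso.result (k A B : Type*) [CommRing k] [CommRing A]
    [CommRing B] [Algebra k A] [Algebra k B]
    (L : Submodule A (Derivation k A A)) (M : Submodule B (Derivation k B B))
    (hL : Stable L) (hM : Stable M) (θ : L ≃ₗ[k] M)
    (hθ : ∀ d e c : L, c.1 = ⁅d.1, e.1⁆ → (θ c).1 = ⁅(θ d).1, (θ e).1⁆) :
    ∃! φ : A ≃ₐ[k] B, ∀ (d : L) (f : B), (θ d).1 f = φ (d.1 (φ.symm f)) :=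
  stable_main L M hL hM θ hθ
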